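import Pool.Agent.Helper79.GS.St5

/-!
# Project GS (MP_c2d095_lc), module EP3: the steps of the procedure are E2
-/

set_option autoImplicit false

namespace Pool.Agent.Helper89.GS

open Pool.Agent.Helper79.GS Pool.Agent.Helper19.SK Pool.Agent.Helper73.DC Finset
open scoped Classical

private theorem eite {p : List (Fin 5) → (ℕ → ℕ) → Prop} {F G : VF (Fin 5)} (inst : ∀ w v, Decidable (p w v))
    (hp : E2P p) (hF : E2 F) (hG : E2 G) :
    E2 (fun w v => @ite ℕ (p w v) (inst w v) (F w v) (G w v)) := by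
  have h := e_ite hp hF hG
  have e : (fun w v => @ite ℕ (p w v) (inst w v) (F w v) (G w v)) =
      fun w v => @ite ℕ (p w v) (Classical.propDecidable _) (F w v) (G w v) := by
    funext w v
    by_cases hh : p w v
    · rw [if_pos hh, if_pos hh]
    · rw [if_neg hh, if_neg hh]
  rw [e]
  exact h

private theorem efi (hEF : StEF) {N Z : VF (Fin 5)} (hN : E2 N) (hZ : E2 Z) (i : ℕ) :
    E2 (fun w v => fi (N w v) w (Z w v) i) :=
  hEF.2.2.2.1 N Z (fun _ _ => i) hN hZ (e_con i)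

private theorem eb (hEF : StEF) {p : List (Fin 5) → (ℕ → ℕ) → Prop} (hp : E2P p) :
    E2 (fun w v => b01 (p w v)) :=
  hEF.2.2.2.2.2.2 p hp

private theorem eah (hEW : StEW) (hEB2 : StEB2) {N C U : VF (Fin 5)} (hN : E2 N) (hC : E2 C) (hU : E2 U) :
    E2P (fun w v => ahN (N w v) (nW w) (C w v) (U w v)) :=
  (hEB2.2.2.2 N (fun w _ => nW w) C U hN hEW.2.1 hC hU).2.1

private theorem est1 (hEW : StEW) (hEB2 : StEB2) (hEF : StEF) {N C U J A Y : VF (Fin 5)} (hN : E2 N) (hC : E2 C)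
    (hU : E2 U) (hJ : E2 J) (hA : E2 A) (hY : E2 Y) :
    E2 (fun w v => stp1 (N w v) w (C w v) (U w v) (J w v) (A w v) (Y w v)) := by
  unfold stp1
  refine eite _ (eah hEW hEB2 hN hC hU) ?_ ?_
  · refine eite _ (e_eq hJ (e_con 0)) (eb hEF (e_or (e_eq hA (e_con 1)) (e_ne hY (e_con 0)))) ?_
    refine eite _ (e_eq hJ (e_con 1)) (eb hEF (e_or (e_eq hA (e_con 1)) (e_eq hY (e_con 0)))) ?_
    exact eb hEF (e_or (e_eq hA (e_con 1)) (e_and
      (hEF.2.2.2.2.1 N C U (fun w v => J w v - 2) hN hC hU (e_sub hJ (e_con 2))).1 (e_eq hY (e_con 0))))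
  · exact eb hEF (e_ne hY (e_con 0))

private theorem est2 (hEF : StEF) {N C U J A Y : VF (Fin 5)} (hN : E2 N) (hC : E2 C)
    (hU : E2 U) (hJ : E2 J) (hA : E2 A) (hY : E2 Y) :
    E2 (fun w v => stp2 (N w v) w (C w v) (U w v) (J w v) (A w v) (Y w v)) := by
  unfold stp2
  exact eb hEF (e_or (e_eq hA (e_con 1)) (e_and (hEF.2.2.2.2.1 N C U J hN hC hU hJ).2 (e_eq hY (e_con 0))))

private theorem est3 (hEF : StEF) {J A Y : VF (Fin 5)} (hJ : E2 J) (hA : E2 A) (hY : E2 Y) :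
    E2 (fun w v => stp3 (J w v) (A w v) (Y w v)) := by
  unfold stp3
  refine eite _ (e_eq hJ (e_con 0)) (eb hEF (e_ne hY (e_con 0))) ?_
  refine eite _ (e_eq hA (e_con 1)) (e_con 1) ?_
  refine eite _ (e_eq (e_mod (e_sub hJ (e_con 1)) (e_con 2)) (e_con 0)) ?_ ?_
  · exact eite _ (e_ne hY (e_con 0)) (e_con 2) (e_con 0)
  · exact eb hEF (e_and (e_eq hA (e_con 2)) (e_eq hY (e_con 0)))

private theorem est4 (hEF : StEF) {A Y : VF (Fin 5)} (hA : E2 A) (hY : E2 Y) :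
    E2 (fun w v => stp4 (A w v) (Y w v)) := by
  unfold stp4
  exact eb hEF (e_or (e_eq hA (e_con 1)) (e_ne hY (e_con 0)))

private theorem est5 (hEA : StEA) (hEF : StEF) {N M D S T X J A Y : VF (Fin 5)} (hN : E2 N) (hM : E2 M)
    (hD : E2 D) (hS : E2 S) (hT : E2 T) (hX : E2 X) (hJ : E2 J) (hA : E2 A) (hY : E2 Y) :
    E2 (fun w v => stp5 (N w v) w (M w v) (D w v) (S w v) (T w v) (X w v) (J w v) (A w v) (Y w v)) := by
  have hP : E2 (fun w v => PhN (N w v) w) := (hEF.2.1 N hN).1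
  unfold stp5
  refine eite _ (e_eq hD (e_con 0)) (hEF.2.2.2.2.2.1 N M S T X Y hN hM hS hT hX hY) ?_
  refine eite _ (e_eq (e_mod hJ (e_con 2)) (e_con 0)) ?_ ?_
  · exact e_add (e_mod hA hP) (e_mul hP (e_mod hY hP))
  · exact e_mod (e_add (e_mod hA hP) (e_mul (e_div hA hP) hY))
      (e_add (hEA.2.2.1 N (fun w _ => LL (nW w)) X hN hEF.1 hX).2.2.1 (e_con 1))

private theorem est6 (hEW : StEW) (hEB2 : StEB2) (hEF : StEF) {N C U S T J A Y : VF (Fin 5)} (hN : E2 N)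
    (hC : E2 C) (hU : E2 U) (hS : E2 S) (hT : E2 T) (hJ : E2 J) (hA : E2 A) (hY : E2 Y) :
    E2 (fun w v => stp6 (N w v) w (C w v) (U w v) (S w v) (T w v) (J w v) (A w v) (Y w v)) := by
  unfold stp6
  refine eite _ (e_eq hJ (e_con 0))
    (eb hEF (e_and (e_eq hA (e_con 1)) (e_or (e_eq hS hU) (e_eq hY (e_con 0))))) ?_
  refine eite _ (e_eq hJ (e_con 1)) (eb hEF (e_and (e_eq hA (e_con 1)) (e_eq hY (e_con 0)))) ?_
  exact eb hEF (e_and (e_eq hA (e_con 1)) (e_or (eah hEW hEB2 hN hC hT) (e_ne hY (e_con 0))))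

theorem hEP3 (hEW : StEW) (hEB2 : StEB2) (hEA : StEA) (hEF : StEF) : StEP3 := by
  intro N Z J A Y hN hZ hJ hA hY
  have f : ∀ i : ℕ, E2 (fun w v => fi (N w v) w (Z w v) i) := efi hEF hN hZ
  unfold StpN
  refine eite _ (e_eq (f 0) (e_con 1)) (est1 hEW hEB2 hEF hN (f 2) (f 5) hJ hA hY) ?_
  refine eite _ (e_eq (f 0) (e_con 2)) (est2 hEF hN (f 2) (f 5) hJ hA hY) ?_
  refine eite _ (e_eq (f 0) (e_con 3)) (est3 hEF hJ hA hY) ?_
  refine eite _ (e_eq (f 0) (e_con 4)) (est4 hEF hA hY) ?_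
  refine eite _ (e_eq (f 0) (e_con 5)) (est5 hEA hEF hN (f 7) (f 9) (f 10) (f 11) (f 12) hJ hA hY) ?_
  refine eite _ (e_eq (f 0) (e_con 6)) (est6 hEW hEB2 hEF hN (f 2) (f 5) (f 10) (f 11) hJ hA hY) ?_
  refine eite _ (e_eq (f 0) (e_con 7)) ?_ (e_con 0)
  exact eite _ (e_eq (f 2) (e_con 1)) (eb hEF (e_ne hY (e_con 0))) (eb hEF (e_eq hY (e_con 0)))

end Pool.Agent.Helper89.GS
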