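import Pool.Agent.Helper79.GS.St1

/-!
# Project GS (MP_c2d095_lc), module GRD: the graph after one round
-/

set_option autoImplicit false

namespace Pool.Agent.Helper89.GS

open Pool.Agent.Helper79.GS Pool.Agent.Helper19.SK

private theorem ahead_congr {P : Type} (A : Arena P) (c : Bool) (x y : P) (h : A.s x = A.s y) :
    ahead A c x ↔ ahead A c y := by
  unfold ahead; rw [h]

theorem hGRD (hLVL : StLVL) (hXLC : StXLC) (hSTB : StSTB) : StGRD := by
  intro P _ A hSc EX H c u v w hu huH huv hvH hXv hwH hEw hwv k hk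
  obtain ⟨-, -, -, huv', hsuv, hpred, hlev, hdist⟩ := hLVL P A hSc c u v huv
  have hsw : A.s w = A.s u := hpred w hwv
  have hk' : ∀ y x, A.s y = A.s u → rv A c y x →
      A.s x = A.s v ∧ A.s x ≠ A.s u ∧ (¬ ahead A c x → x ∉ H → x ≠ v →
        (Xk A EX (insert w (insert v H)) c k x ↔ Xk A EX H c k x)) := by
    intro y x hy hyx
    obtain ⟨h1, -, -, -, h5, -, -, h8⟩ := hLVL P A hSc c y x hyx
    have hsx : A.s x = A.s v := by
      rcases h8 with ⟨hc, h8⟩ | ⟨hc, h8⟩ <;> rcases hdist with ⟨hc', h9⟩ | ⟨hc', h9⟩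
      · rw [h8, h9, hy]
      · rw [hc] at hc'; cases hc'
      · rw [hc] at hc'; cases hc'
      · rw [h8, h9, hy]
    refine ⟨hsx, fun h => h5 (by rw [h, hy]), fun hax hxH hxv => ?_⟩
    obtain ⟨hay, hmy⟩ := hlev y hu hy
    have hm : mg A c x / 4 + 1 = k := by rw [h1 hay hax, hmy, hk]
    have hX : ∀ V : Set P, (Xk A EX V c k x ↔ XIN A EX V c x) := by
      intro V; unfold XIN; rw [hm]
    rw [hX, hX]
    have h2 : XIN A EX (insert w (insert v H)) c x ↔ XIN A EX (insert v H) c x := by
      refine hXLC P A hSc EX _ _ c x hax (fun z _ hz => ?_)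
      have hzw : z ≠ w := by
        rintro rfl
        rcases hdist with ⟨hc, h9⟩ | ⟨hc, h9⟩
        · rw [if_pos hc] at hz
          omega
        · rw [if_neg (by rw [hc]; exact Bool.false_ne_true)] at hz
          omega
      constructor
      · intro h
        rcases h with h | h
        · exact absurd h hzw
        · exact h
      · intro h; exact Or.inr h
    rw [h2]
    have hav : ¬ ahead A c v := fun h => hax ((ahead_congr A c x v hsx).2 h)
    exact hSTB P A hSc EX H c v x hav (hXv hav) hvH hxH hxv hsx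
  funext y x
  apply propext
  constructor
  · rintro ⟨h1, h2, h3, h4, h5, h6⟩
    have hy : A.s y = A.s u := by rw [h2, hsw]
    obtain ⟨hsx, hsx', hX⟩ := hk' y x hy h3
    have hxv : x ≠ v := fun h => h4 (Or.inr (Or.inl h))
    have hxH : x ∉ H := fun h => h4 (Or.inr (Or.inr h))
    have hyH : y ∉ H ∧ ¬ EX c y := by
      rcases h1 with h1 | ⟨h1, h1'⟩
      · rw [h1]; exact ⟨hwH, hEw⟩
      · exact ⟨fun h => h1 (Or.inr (Or.inr h)), h1'⟩
    exact ⟨fun h => hyH.1 (h ▸ huH), hxv, Or.inr hyH, hy, h3, hxH, h5,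
      fun ha => (hX ha hxH hxv).1 (h6 ha)⟩
  · rintro ⟨h0, hxv, h1, hy, h3, hxH, h5, h6⟩
    obtain ⟨hsx, hsx', hX⟩ := hk' y x hy h3
    have hyH : y ∉ H ∧ ¬ EX c y := by
      rcases h1 with h1 | h1
      · exact absurd h1 h0
      · exact h1
    have hyv : y ≠ v := fun h => hsuv (by rw [← h, hy])
    refine ⟨?_, by rw [hy, hsw], h3, ?_, h5, fun ha => (hX ha hxH hxv).2 (h6 ha)⟩
    · by_cases hyw : y = w
      · exact Or.inl hyw
      · refine Or.inr ⟨fun h => ?_, hyH.2⟩
        rcases h with h | h | h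
        · exact hyw h
        · exact hyv h
        · exact hyH.1 h
    · intro h
      rcases h with h | h | h
      · exact hsx' (by rw [h, hsw])
      · exact hxv h
      · exact hxH h

end Pool.Agent.Helper89.GS
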